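import Pool.Agent.Y757.GM.Stm
import Pool.Agent.Y757.EM.Clo

set_option autoImplicit false

/-! Project GM: closeness in mean of `log |ζ|` and the sums over primes, over the half plane. -/

namespace Pool.Agent.Y901.GM

open MeasureTheory Set Filter Topology Pool.Agent.Y757.LS Pool.Agent.Y757.EM Real ZU
open scoped ENNReal

noncomputable section

/-- the bound -/
def BB (N : ℕ) (t : ℝ) : ℝ :=
  2 * UU N t + 12 * t⁻¹ - II 0 (3/2) t + ∑ p ∈ pr N, PI p 0 (3/2) t + 8 * tail (3/4) N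

lemma int_bound (N : ℕ) {t : ℝ} (ht : 1 ≤ t) : ∫ s in Ioi (0:ℝ), |Xi N s t| ≤ BB N t := by
  unfold BB
  have hi := Xi_int N ht
  have e : Ioi (0:ℝ) = Ioc 0 (3/2) ∪ Ioi (3/2) := (Ioc_union_Ioi_eq_Ioi (by norm_num)).symm
  have hi1 : IntegrableOn (fun s => Xi N s t) (Ioc 0 (3/2)) := hi.mono_set Ioc_subset_Ioi_self
  have h2 : ∫ s in Ioi (0:ℝ), |Xi N s t| = (∫ s in Ioc (0:ℝ) (3/2), |Xi N s t|) + ∫ s in Ioi (3/2:ℝ), |Xi N s t| := by
    rw [e]
    exact setIntegral_union (by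
      rw [Set.disjoint_left]
      intro x hx hx2
      exact absurd hx.2 (not_le.2 hx2)) measurableSet_Ioi hi1.abs (Xi_far_int N t).1.abs
  have hG : IntegrableOn (fun s => log⁺ ‖Gn N (pt s t)‖) (Ioc 0 (3/2)) :=
    (intervalIntegrable_iff_integrableOn_Ioc_of_le (by norm_num)).1 (Gn_ii N t)
  have h3 : ∫ s in Ioc (0:ℝ) (3/2), |Xi N s t| ≤
      ∫ s in Ioc (0:ℝ) (3/2), (2 * (log⁺ ‖Gn N (pt s t)‖ + 4 / t) - Xi N s t) := by
    have hcst : IntegrableOn (fun _ : ℝ => 4 / t) (Ioc 0 (3/2)) := integrable_const _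
    have hG2 : IntegrableOn (fun s => 2 * (log⁺ ‖Gn N (pt s t)‖ + 4 / t)) (Ioc 0 (3/2)) :=
      (hG.add hcst).const_mul 2
    refine integral_mono_ae hi1.abs (hG2.sub hi1) ?_
    filter_upwards [ae_ne (a := 0) (b := 3/2) (by norm_num) (by norm_num) t, ae_restrict_mem measurableSet_Ioc]
      with s hs hs2
    have hz : riemannZeta (pt s t) ≠ 0 := by
      have ht' : 1 ≤ |t| := by rwa [abs_of_pos (by linarith)]
      exact (GG_ne_iff (by linarith [hs2.1]) ht').1 hs
    have h4 := Xi_le N hs2.1.le ht hz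
    have h5 : 0 ≤ log⁺ ‖Gn N (pt s t)‖ := posLog_nonneg
    have h6 : 0 ≤ 4 / t := by positivity
    rw [abs_le]
    constructor <;> linarith
  have h4 : ∫ s in Ioc (0:ℝ) (3/2), (2 * (log⁺ ‖Gn N (pt s t)‖ + 4 / t) - Xi N s t) =
      2 * UU N t + 12 * t⁻¹ - ∫ s in Ioc (0:ℝ) (3/2), Xi N s t := by
    have hcst : IntegrableOn (fun _ : ℝ => 4 / t) (Ioc 0 (3/2)) := integrable_const _
    have hG2 : IntegrableOn (fun s => 2 * (log⁺ ‖Gn N (pt s t)‖ + 4 / t)) (Ioc 0 (3/2)) :=
      (hG.add hcst).const_mul 2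
    rw [integral_sub hG2 hi1, integral_const_mul, integral_add hG hcst]
    congr 1
    unfold UU
    rw [intervalIntegral.integral_of_le (by norm_num), setIntegral_const, Measure.real, Real.volume_Ioc,
      ENNReal.toReal_ofReal (by norm_num), smul_eq_mul]
    field_simp
    ring
  have h5 : ∫ s in Ioc (0:ℝ) (3/2), Xi N s t = (∫ s in Ioc (0:ℝ) (3/2), lz s t) -
      ∑ p ∈ pr N, PI p 0 (3/2) t := by
    unfold Xi PI
    rw [integral_sub (lz_ioc ht) ((psi_sum_int N t).mono_set Ioc_subset_Ioi_self),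
      integral_finsetSum _ (fun p hp => (psi_integrable (pr_two hp) t).mono_set Ioc_subset_Ioi_self)]
    congr 1
    refine Finset.sum_congr rfl fun p _ => ?_
    rw [intervalIntegral.integral_of_le (by norm_num)]
  have h6 := II_le t ht
  have h7 := (Xi_far_int N t).2
  linarith

theorem close {ε : ℝ} (hε : 0 < ε) : ∃ N₀ : ℕ, ∀ N : ℕ, N₀ ≤ N → ∃ T₀ : ℝ, 1 ≤ T₀ ∧ ∀ T : ℝ, T₀ ≤ T →
    IntervalIntegrable (BB N) volume 1 T ∧ ∫ t in (1:ℝ)..T, BB N t ≤ ε * T := by
  obtain ⟨N₁, hN₁, happ⟩ := app_mean (ε := ε / 16) (by positivity)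
  have ht := (Pool.Agent.Y757.EM.tail_tendsto (σ := 3/4) (by norm_num)).eventually (gt_mem_nhds (show (0:ℝ) < ε / 64 by positivity))
  rw [eventually_atTop] at ht
  obtain ⟨N₂, hN₂⟩ := ht
  refine ⟨max N₁ N₂, fun N hN => ?_⟩
  obtain ⟨T₁, hT₁, h1⟩ := happ N ((le_max_left _ _).trans hN)
  have htail := (hN₂ N ((le_max_right _ _).trans hN)).le
  have htail0 := tail_nonneg (3/4) N
  obtain ⟨T₂, hT₂, h2⟩ := low_mean (ε := ε / 8) (by positivity)
  -- the logarithmic terms
  have hlog : Tendsto (fun T : ℝ => (12 * Real.log T + 18 * (pr N).card) / T) atTop (𝓝 0) := by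
    have a1 : Tendsto (fun T : ℝ => Real.log T / T) atTop (𝓝 0) :=
      Real.isLittleO_log_id_atTop.tendsto_div_nhds_zero
    have a2 : Tendsto (fun T : ℝ => T⁻¹) atTop (𝓝 0) := tendsto_inv_atTop_zero
    have a3 := (a1.const_mul 12).add (a2.const_mul (18 * ((pr N).card : ℝ)))
    rw [mul_zero, mul_zero, add_zero] at a3
    refine a3.congr' ?_
    filter_upwards [eventually_gt_atTop 0] with T hT
    field_simp
  have hl2 := hlog.eventually (gt_mem_nhds (show (0:ℝ) < ε / 4 by positivity))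
  rw [eventually_atTop] at hl2
  obtain ⟨T₃, hT₃⟩ := hl2
  refine ⟨max T₁ (max T₂ T₃), le_max_of_le_left hT₁, fun T hT => ?_⟩
  have hTa : T₁ ≤ T := (le_max_left _ _).trans hT
  have hTb : T₂ ≤ T := ((le_max_left _ _).trans (le_max_right _ _)).trans hT
  have hTc : T₃ ≤ T := ((le_max_right _ _).trans (le_max_right _ _)).trans hT
  have hT1 : 1 ≤ T := hT₁.trans hTa
  have hT0 : 0 < T := by linarith
  -- the positive part
  have hU : ∫⁻ t in Ioc 1 T, ENNReal.ofReal (UU N t) ≤ ENNReal.ofReal (ε / 16 * T) := by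
    refine le_trans ?_ (h1 T hTa)
    have hm : Measurable (fun q : ℝ × ℝ => uL (Gn N) q.2 q.1) := by
      unfold uL
      have h2 : Measurable (fun q : ℝ × ℝ => pt q.2 q.1) := by unfold pt; fun_prop
      exact (Real.continuous_posLog.measurable.comp (((Gn_meas N).comp h2).norm)).ennreal_ofReal
    calc ∫⁻ t in Ioc 1 T, ENNReal.ofReal (UU N t) ≤
          ∫⁻ t in Ioc 1 T, ∫⁻ s in Ioc (0:ℝ) (3/2), uL (Gn N) s t := by
          refine lintegral_mono fun t => ?_
          unfold UU uL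
          rw [intervalIntegral.integral_of_le (by norm_num)]
          exact ofReal_integral_le fun s => posLog_nonneg
      _ = ∫⁻ s in Ioc (0:ℝ) (3/2), ∫⁻ t in Ioc 1 T, uL (Gn N) s t := by
          rw [lintegral_lintegral_swap]
          exact hm.aemeasurable
      _ ≤ _ := by
          refine lintegral_mono fun s => lintegral_mono_set ?_
          intro t ht
          exact ⟨by linarith [ht.1], ht.2⟩
  have hUi : IntegrableOn (UU N) (Ioc 1 T) := by
    refine ⟨(UU_meas N).aestronglyMeasurable, ?_⟩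
    rw [hasFiniteIntegral_iff_ofReal (Eventually.of_forall fun t => UU_nonneg N t)]
    exact hU.trans_lt ENNReal.ofReal_lt_top
  have hUii : IntervalIntegrable (UU N) volume 1 T :=
    (intervalIntegrable_iff_integrableOn_Ioc_of_le hT1).2 hUi
  have hUv : ∫ t in (1:ℝ)..T, UU N t ≤ ε / 16 * T := by
    rw [intervalIntegral.integral_of_le hT1]
    rw [← ofReal_integral_eq_lintegral_ofReal hUi (Eventually.of_forall fun t => UU_nonneg N t)] at hU
    exact (ENNReal.ofReal_le_ofReal_iff (by positivity)).1 hU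
  have hIi : IntervalIntegrable (II 0 (3/2)) volume 1 T := by
    obtain ⟨C, hC, hL⟩ := II_Lgr
    exact hL.ii hC (II_measurable 0 (3/2)) 1 T
  have hPi : IntervalIntegrable (fun t => ∑ p ∈ pr N, PI p 0 (3/2) t) volume 1 T := by
    have := IntervalIntegrable.sum (pr N) (f := fun p => fun t => PI p 0 (3/2) t) (μ := volume) (a := 1) (b := T)
      (fun p hp => (PI_av (pr_two hp) le_rfl (by norm_num) hT1).1)
    refine this.congr ?_
    intro s _
    simp
  have hinv : IntervalIntegrable (fun t : ℝ => 12 * t⁻¹) volume 1 T := by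
    refine ContinuousOn.intervalIntegrable ?_
    rw [uIcc_of_le hT1]
    intro t ht
    have : t ≠ 0 := by linarith [ht.1]
    exact (continuousAt_const.mul (continuousAt_inv₀ this)).continuousWithinAt
  have hci : IntervalIntegrable (fun _ : ℝ => 8 * tail (3/4) N) volume 1 T := intervalIntegrable_const
  set B : ℝ → ℝ := fun t => 2 * UU N t + 12 * t⁻¹ - II 0 (3/2) t + ∑ p ∈ pr N, PI p 0 (3/2) t + 8 * tail (3/4) N
    with hB
  have hBi : IntervalIntegrable B volume 1 T :=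
    ((((hUii.const_mul 2).add hinv).sub hIi).add hPi).add hci
  refine ⟨hBi, ?_⟩
  change ∫ t in (1:ℝ)..T, B t ≤ ε * T
  have h4 : ∫ t in (1:ℝ)..T, B t = 2 * (∫ t in (1:ℝ)..T, UU N t) + 12 * Real.log T -
      (∫ t in (1:ℝ)..T, II 0 (3/2) t) + (∑ p ∈ pr N, ∫ t in (1:ℝ)..T, PI p 0 (3/2) t) +
      8 * tail (3/4) N * (T - 1) := by
    simp only [hB]
    rw [intervalIntegral.integral_add ((((hUii.const_mul 2).add hinv).sub hIi).add hPi) hci,
      intervalIntegral.integral_add (((hUii.const_mul 2).add hinv).sub hIi) hPi,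
      intervalIntegral.integral_sub ((hUii.const_mul 2).add hinv) hIi,
      intervalIntegral.integral_add (hUii.const_mul 2) hinv, intervalIntegral.integral_const_mul,
      intervalIntegral.integral_const_mul, integral_inv_of_pos one_pos hT0, div_one,
      intervalIntegral.integral_const, intervalIntegral.integral_finsetSum
        (fun p hp => (PI_av (pr_two hp) le_rfl (by norm_num) hT1).1), smul_eq_mul]
    ring
  have h5 : ∑ p ∈ pr N, ∫ t in (1:ℝ)..T, PI p 0 (3/2) t ≤ 18 * (pr N).card := by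
    calc _ ≤ ∑ p ∈ pr N, (18:ℝ) := by
          refine Finset.sum_le_sum fun p hp => ?_
          have := (le_abs_self _).trans (PI_av (pr_two hp) le_rfl (by norm_num : (0:ℝ) ≤ 3/2) hT1).2
          linarith
      _ = _ := by rw [Finset.sum_const, nsmul_eq_mul]; ring
  have h6 := h2 T hTb
  have h7 := hT₃ T hTc
  rw [div_lt_iff₀ hT0] at h7
  have h8 : tail (3/4) N * (T - 1) ≤ ε / 64 * T := by
    have : 0 ≤ ε := hε.le
    nlinarith
  rw [h4]
  nlinarith


theorem t_clo : Pool.Agent.Y757.GM.S_clo := by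
  intro ε hε
  obtain ⟨N₀, h⟩ := close hε
  refine ⟨N₀, fun N hN => ?_⟩
  obtain ⟨T₀, hT₀, h1⟩ := h N hN
  refine ⟨T₀, hT₀, fun T hT => ?_⟩
  obtain ⟨hi, h2⟩ := h1 T hT
  have hT1 : 1 ≤ T := hT₀.trans hT
  have hnn : ∀ t : ℝ, 1 ≤ t → 0 ≤ BB N t := fun t ht =>
    (integral_nonneg fun s => abs_nonneg _).trans (int_bound N ht)
  have h3 : ∀ t ∈ Icc 1 T, ∫⁻ s in Ioi (0:ℝ), ‖Xi N s t‖ₑ ≤ ENNReal.ofReal (BB N t) := by
    intro t ht
    rw [← ofReal_integral_norm_eq_lintegral_enorm (Xi_int N ht.1)]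
    exact ENNReal.ofReal_le_ofReal (int_bound N ht.1)
  calc ∫⁻ t in Icc 1 T, ∫⁻ s in Ioi (0:ℝ), ‖Xi N s t‖ₑ
      ≤ ∫⁻ t in Icc 1 T, ENNReal.ofReal (BB N t) := setLIntegral_mono' measurableSet_Icc h3
    _ = ∫⁻ t in Ioc 1 T, ENNReal.ofReal (BB N t) := by
        rw [Measure.restrict_congr_set Ioc_ae_eq_Icc]
    _ = ENNReal.ofReal (∫ t in Ioc 1 T, BB N t) := by
        rw [ofReal_integral_eq_lintegral_ofReal]
        · exact (intervalIntegrable_iff_integrableOn_Ioc_of_le hT1).1 hi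
        · rw [EventuallyLE, ae_restrict_iff' measurableSet_Ioc]
          exact Eventually.of_forall fun t ht => hnn t ht.1.le
    _ ≤ ENNReal.ofReal (ε * T) := by
        rw [← intervalIntegral.integral_of_le hT1]
        exact ENNReal.ofReal_le_ofReal h2

end

end Pool.Agent.Y901.GM
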